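import Pool.Agent.U190.HC.Defs

/-!
# The standard conjecture of Hodge type for products with cyclic coverings branched along hyperplanes

Let `κ` be a finite field with `q = c ^ f` elements and `k` its algebraic closure. Let `H` be a Weil
cohomology theory on a class of smooth proper varieties over `k`, with an algebraically closed
coefficient field, and `G` a class of varieties, closed under products, with an action of a group
`Γ` with the formal properties of a Galois action (the example: the varieties which are defined over `κ`,
and the Galois group of `κ`). Let `σ` be the (geometric) Frobenius.

Let `X_i` be varieties in `G`, of any dimensions `n_i`, which are models of cyclic coverings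
`w ^ N_i = ∏ l_{i,k} (x) ^ a_{i,k}` of projective spaces, branched along hyperplanes `l_{i,k} = 0` over
`κ`, with exponents prime to `N_i`, where `N_i` divides `q - 1`: the cohomology of `X_i` is generated by
classes of algebraic cycles and a part `T` without invariants under the covering group, which is pure of
weight `n_i` and satisfies the trace formula (`IsModel`). Let `N` be a common multiple of the `N_i`, and
`λ` an integer such that `IsSmall` holds: for every nonempty finite set `I` of indices and all `j_i` not
divisible by `N_i` (`i ∈ I`) there is a `u` prime to `N` with
`∑_{i ∈ I} weight X_i (u j_i) + λ / 2 < ∑_{i ∈ I} (n_i / 2 + 1)`, where `weight X j` is the mean over the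
orbit `j, c j, …, c ^ (f - 1) j` of the sum of the fractional parts of `j a_k / N_i`.

Let `Z` be **any** variety in `G` for which the Frobenius eigenvalues `b` satisfy `|b| ^ 2 = q ^ j`
(theorem of Deligne) and
* either `λ = 0` and the cyclotomic polynomial of order `N` is irreducible over the field generated by
  the numbers `b` (for given `Z` this is true for all `N` prime to the discriminant of this field),
* or `Z` is of level `≤ λ`: the numbers `q ^ λ b / b̄` are algebraic integers. This is true if
  `dim Z ≤ λ`.

Let `D_i` be divisors on the `X_i` which satisfy the hard Lefschetz theorem and the standard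
conjecture of Hodge type (this is known for `n_i ≤ 3`), and `E` a divisor on `Z` which satisfies the
hard Lefschetz theorem. Let `V` be the product of `Z` and of finitely many pairwise different `X_i`, with
the sum of the pull-backs of the `D_i` and of `E`. Then the standard conjecture of Hodge type holds for
`V` **if and only if** it holds for `(Z, E)`. No conjecture of Lefschetz type `A` or `B`, no
coincidence of homological and numerical equivalence, no case of the Tate conjecture and no
semisimplicity of the Frobenius is assumed, neither for `Z` nor for the `X_i`.

Example: `N` a prime number dividing `c - 1`, and `X` a model of the covering `w ^ N = l_1 ⋯ l_N` of the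
projective space of dimension `n = N - 2`, hyperplanes in general position. Then `IsSmall` holds for one
covering and all `λ < n`, so the theorem applies to **all** varieties `Z` over `κ` of dimension
smaller than `dim X`. For `N = 5` (Calabi-Yau threefolds `X`) the conjecture holds for `X × Z` and
all surfaces `Z` over `κ`, in dimension five.

The proof: by the theorem of Stickelberger on Gauss sums and the product formula no product of
eigenvalues of the Frobenius on the parts `T` of several `X_i` and on the cohomology of `Z` is a root of
unity times a power of `q`. So the algebraic classes on the product are combinations of products of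
algebraic classes on the `X_i` with classes on `Z`, the conjecture D and so the conjecture A hold
for the `X_i`, and the Lefschetz decomposition of the algebraic classes on the `X_i` gives the
statement (N876.FL: helper876; the estimates for sums over hyperplane arrangements by Gauss sums by
helper528 and others).
-/

set_option autoImplicit false

universe u

namespace Pool.Agent.Results.MP_361a6f_ag.HyperplaneCoverings

open Pool.Agent.H914 Pool.Agent.H914.VarClass.Obj Pool.Agent.H281R3.HT Pool.Agent.TH125.Gal
  Pool.Agent.U190.HC

/-- **The standard conjecture of Hodge type for products of arbitrary varieties with cyclic coverings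
branched along hyperplanes.** -/
theorem result (c : ℕ) [Fact c.Prime] (κ : Type) [Field κ] [Fintype κ] [CharP κ c] {ι : Type}
    (C : ι → Covering κ) (f N lam : ℕ) (hC : IsSmallSystem C c f N lam)
    {k : Type u} [Field k] {𝒱 : VarClass k} {ops : CycleOps 𝒱}
    (W : WeilCohomology.{u, 0} ops) [IsAlgClosed W.K] (τ : W.K →+* ℂ)
    {Γ : Type} [Group Γ] (χ : Γ →* W.Kˣ) (G : Set (GVar W Γ))
    (X : ι → GVar W Γ) (Z : GVar W Γ) (σ : Γ) (h : IsCoveringSystem C N lam χ G X Z σ τ)
    (D : ∀ i, (X i).X.Cycles) (hD : ∀ i, (X i).X.IsCyc 1 (D i))
    (hHD : ∀ i, HardLefschetz W (X i).X (D i)) (hHod : ∀ i, HodgeType W (X i).X (D i))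
    (E : Z.X.Cycles) (hE : Z.X.IsCyc 1 E) (hHE : HardLefschetz W Z.X E)
    (L : List ι) (hL : L.Nodup) :
    HodgeType W (productOf X D ⟨Z.X, E⟩ L).X (productOf X D ⟨Z.X, E⟩ L).D ↔
      HodgeType W Z.X E := by
  obtain ⟨S, hS⟩ := exists_sys c κ C f N lam hC h
  rw [productOf_eq]
  exact hS.hodge_tow hD hHD hHod hE hHE hL

end Pool.Agent.Results.MP_361a6f_ag.HyperplaneCoverings
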