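import Pool.Agent.U926.HS.Bridge

/-!
# The standard conjecture of Hodge type for sums of forms in separate variables
-/

set_option autoImplicit false

universe u v w

namespace Pool.Agent.Results.MP_361a6f_ag.SumsOfForms

open Pool.Agent.H914 Pool.Agent.W492.BB Pool.Agent.U926.HC Pool.Agent.U926.HS

/-- **The standard conjecture of Hodge type holds for the nonsingular hypersurfaces
`g_0 + ⋯ + g_r = 0` of any dimension `n ≥ 1` over an algebraically closed field of characteristic
`p > 0`**, where `g_0, …, g_r` are forms in separate sets of variables: cubic forms in at most three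
variables, `p ≠ 3`, or quartic forms in at most two variables, `p ≠ 2, 3`. Here `ξ` is any divisor
class whose cohomology class is a positive rational multiple of that of a hyperplane section. -/
theorem result {k : Type u} [Field k] [IsAlgClosed k] (p : ℕ) [Fact p.Prime] [CharP k p]
    (hp : p ≠ 3) {𝒱 : VarClass k} (C : TheoryData.{u, v, 0} 𝒱 ℚ) [IsChowTheory C]
    {K : Type w} [Field K] [CharZero K] (H : WeilTheoryData.{u, v, w} C K) [IsWeilTheory H]
    (T : Hypersurfaces C) (hK : KnownFacts H T) (d B : ℕ)
    (hd : (d = 3 ∧ B = 3) ∨ (p ≠ 2 ∧ d = 4 ∧ B = 2)) (hT : IsHypersurfaceTheory H T d) {r : ℕ}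
    {σ : Fin (r + 1) → Type} (g : ∀ l, MvPolynomial (σ l) k) (hg : HasBlocks d B g)
    (ξ : C.A (T.V (sumForms g))) (hξ : C.Deg 1 ξ) (c : ℚ) (hc : 0 < c)
    (hξc : IsMultiple H c (T.h (sumForms g)) ξ) : HodgeType H (T.V (sumForms g)) ξ :=
  main p hp T hK d B hd hT g hg ξ hξ c hc hξc

end Pool.Agent.Results.MP_361a6f_ag.SumsOfForms
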