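import Pool.Agent.U124.HQ.Stm
import Pool.Agent.U124.HL.Main

/-!
# The standard conjecture of Hodge type in `l`-adic cohomology for products of abelian varieties with
Weil classes

Over an algebraic closure `k` of the field with `p` elements we prove the standard conjecture of Hodge
type, **modulo homological equivalence, in all codimensions**, for all abelian varieties that are
isogenous to `A_1 ^ n_1 × ... × A_m ^ n_m × S`, where `S` is supersingular, the `n_i` and the
dimensions of the `A_i` are arbitrary, and the `A_i` are simple abelian varieties of the two kinds
described below, with an imaginary quadratic field `K`; in `l`-adic cohomology for **all prime numbers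
`l ≠ p` which do not split in `K`**. On these varieties there are in general exotic classes (Weil
classes) in many codimensions, also classes which mix several of the factors `A_i`. It is not known
whether they are algebraic, nor whether homological and numerical equivalence coincide for all `l`.

**The model** is the one of the starting files (`Pool.Agent.W495.TA`, `Pool.Agent.TH117`,
`Pool.Agent.N202.QR`). By Honda and Tate an abelian variety over `k` is, up to isogeny, a reduction
of an abelian variety of CM type: `RedAV p ν`. It has finitely many factors, indexed by `Z.X.I`; the
factor `i` has a CM field `E i = (Z.X.factor i).E` and a Weil number `Z.π i` in `E i` (the Frobenius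
endomorphism over the field with `q = p ^ a` elements, `a = Z.a`). Its cohomology of degree `n`, with
coefficients in an algebraic closure `Ω l` of the field of `l`-adic numbers, consists of the
alternating `n`-forms on `Ω l ⊗ H_1`. `IsSystemOfCycles Ω C`: the set `C` of families of cohomology
classes, one for each prime number `l`, has the known properties of the set of the classes of the
algebraic cycles: sums, products, pull-backs, push-forwards, rational degrees, the theorem of
Lefschetz for the liftings, the theorem of Tate for divisors, the algebraicity of split Weil classes
in the dimensions four and six (Markman), the rationality over the field of `l`-adic numbers of the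
intersection numbers with the Hodge classes of liftings (all this is `IsCompatible`, in a starting
file), and, for `l ≠ p`, the rationality of the classes over the field of `l`-adic numbers, the
positivity of the Rosati involution (Weil), and the fact that classes of cycles are Tate classes.
`HoldsForNonsplit`: for all `l ≠ p` for which there is no embedding of `K` in the field of `l`-adic
numbers and for all `Y` isogenous, over `k`, to a product of powers of the factors of `Z` and of a
supersingular variety (`IsPowersTimesSupersingular Z Y`), the form `(-1) ^ r z ∪ z ∪ E ^ (dim Y - 2 r)`
is positive for all primitive classes **`z ≠ 0`** of cycles of codimension `r`, for all `r` and for all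
polarizations `E` of `Y` that are compatible with the complex multiplications of the lifting (up to
isogeny these are all polarized abelian varieties over `k`) (`IsPositiveDefinite`).

**The theorem.** Let `K` be an imaginary quadratic field and `κ` a complex embedding of `K`. Suppose
that each factor `i` of `Z` satisfies (1) or (2).

(1) `E i` contains `K` (by an embedding `ι`), the automorphisms of `ℂ` which fix the complex
embeddings of all the other fields `E k` are transitive on the embeddings of `E i` over `κ`
(`IndepOver`; no condition if there is only one factor), and (`KindOver`)

* `E i = K` (elliptic curves with complex multiplication by `K`), or
* the automorphisms of `ℂ` are doubly transitive on the embeddings of `E i` over `κ`, for instance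
  `E i = K F i` for a totally real field `F i` of any degree `g` for which the Galois group of the
  normal closure is doubly transitive (the symmetric or alternating group of degree `g`, ...), and
  no power of `Z.π i` belongs to `K`, or
* the degree of `E i` over `K` is a prime number and no power of `Z.π i` belongs to `K`, or
* the degree of `E i` over `K` is a power `r ^ n` of an odd prime number `r`, and the slopes at the
  embeddings `φ` are `(a + c d φ) / 2` with `c ≠ 0` and integers `d φ` whose sum over the embeddings
  over `κ` is not divisible by `r`, or
* in general, all relations between the eigenvalues `φ (Z.π i)` of the factor `i` alone are, up to
  pairs of complex conjugate eigenvalues, defined over `K` (`RelationsOver`).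

(2) Any complex embedding of `E i` is exchanged with its complex conjugate by an automorphism of `ℂ`
which fixes the complex embeddings of all the other fields `E k` (`IndepConj`), and (`KindFree`)

* for any embeddings `φ`, `ψ` of `E i` with `ψ` different from `φ` and its conjugate some
  automorphism of `ℂ` fixes `φ` and maps `ψ` to its conjugate (`HasSignChanges`), and the factor is
  not supersingular, or
* in general, there are no relations between the eigenvalues of the factor `i` alone except those
  of the complex conjugate pairs (`IsNeat`).

Then `HoldsForNonsplit C K Z`.

**The proof.** The relations between all the eigenvalues are, up to pairs, defined over `K`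
(`Pool.Agent.U124.HQ`); a theorem of the starting file MP_ffcd14_ag QuadraticRelations then gives the
sign of the products of conjugate coefficients of a class, when these products are not zero; so the
positivity was known for classes that are not numerically trivial. New here (`Pool.Agent.U124.HL`):
the coefficients of a class on a word `s` in the eigenvalues and on its complex conjugate are both
different from zero or both zero. One transports the word by correspondences (products of classes of
divisors and of the known Weil classes) to a word on another variety that is stable under the
automorphisms over `K`; an automorphism over the field of `l`-adic numbers which is not the identity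
on `K` maps this word to its complex conjugate, and it maps the class to itself because the class is
rational over the field of `l`-adic numbers; finally one divides by the Weil word.
-/

set_option autoImplicit false

namespace Pool.Agent.Results.MP_361a6f_ag.WeilClassesNonsplit

open NumberField Module
open Pool.Agent.W495.TA Pool.Agent.TH117.PO Pool.Agent.TH117.BL Pool.Agent.N202.QR
  Pool.Agent.U124.HQ.Stm Pool.Agent.U124.HL

/-- **The `l`-adic standard conjecture of Hodge type for products of powers of abelian varieties with
independent fields whose relations are defined over one imaginary quadratic field `K`, for the prime
numbers `l ≠ p` which do not split in `K`.** -/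
theorem result {p : ℕ} [Fact p.Prime] {ν : PadicAlgCl p ≃+* ℂ} {K : Type} [Field K] [NumberField K]
    [IsCMField K] (hK : finrank ℚ K = 2) (κ : K →+* ℂ) (Z : RedAV p ν)
    (hZ : ∀ i : Z.X.I,
      (∃ ι : K →+* (Z.X.factor i).E, IndepOver (F := fun i => (Z.X.factor i).E) κ i ι ∧
        KindOver ν κ ι Z.a (Z.π i)) ∨
      (IndepConj (fun i => (Z.X.factor i).E) i ∧ KindFree (p ^ Z.a) (Z.π i)))
    {Ω : Nat.Primes → Type} [∀ l, Field (Ω l)] [∀ l, CharZero (Ω l)]
    [∀ l : Nat.Primes, Algebra ℚ_[(l : ℕ)] (Ω l)] [∀ l, IsAlgClosed (Ω l)]
    [∀ l : Nat.Primes, Algebra.IsAlgebraic ℚ_[(l : ℕ)] (Ω l)]
    {C : (Y : RedAV p ν) → (κ : Type) → FCl Ω Y κ → Prop} (hC : IsSystemOfCycles Ω C) :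
    HoldsForNonsplit C K Z :=
  holds_of_quad hC hK κ (quad_of_kinds hK κ Z hZ)

end Pool.Agent.Results.MP_361a6f_ag.WeilClassesNonsplit
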